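import Pool.Agent.H93.BD.Targets

/-!
Module PLN (board bdc_modules): Plancherel with the phase `exp(i ξ·y)`.
-/

namespace Pool.Agent.H13.BD

open Pool.Agent.H93.BD MeasureTheory
open scoped ENNReal NNReal FourierTransform SchwartzMap

theorem lint_sq {m : ℕ} (g : 𝓢(E m, ℂ)) :
    ∫⁻ x, ‖g x‖ₑ ^ (2 : ℝ) = ENNReal.ofReal (∫ x, ‖g x‖ ^ 2) := by
  have hint : Integrable (fun x => ‖g x‖ ^ 2) volume :=
    (g.memLp 2 volume).integrable_norm_pow (by norm_num)
  rw [ofReal_integral_eq_lintegral_ofReal hint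
    (Filter.Eventually.of_forall fun x => by positivity)]
  refine lintegral_congr fun x => ?_
  rw [← ofReal_norm, ENNReal.ofReal_rpow_of_nonneg (norm_nonneg _) (by norm_num)]
  norm_num

theorem pf_PLN : T_PLN := by
  intro m H hH hc
  let f : 𝓢(E m, ℂ) := hc.toSchwartzMap hH
  have hf : ∀ x, f x = H x := fun x => rfl
  set r : ℝ := -(2 * Real.pi)⁻¹ with hr
  have hr0 : r ≠ 0 := by
    rw [hr]
    have := Real.pi_pos
    exact neg_ne_zero.2 (inv_ne_zero (by positivity))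
  have key : ∀ y : E m, (∫ ξ, H ξ * Complex.exp (((inner ℝ ξ y : ℝ) : ℂ) * Complex.I))
      = 𝓕 f (r • y) := by
    intro y
    rw [SchwartzMap.fourier_coe, Real.fourier_eq']
    refine integral_congr_ae (Filter.Eventually.of_forall fun ξ => ?_)
    simp only [inner_smul_right, smul_eq_mul, hf]
    rw [mul_comm]
    congr 2
    have hpi : Real.pi ≠ 0 := Real.pi_ne_zero
    have : -2 * Real.pi * (r * inner ℝ ξ y) = inner ℝ ξ y := by
      rw [hr]
      field_simp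
    rw [this]
  have h1 : ∫⁻ y : E m, ‖∫ ξ, H ξ * Complex.exp (((inner ℝ ξ y : ℝ) : ℂ) * Complex.I)‖ₑ ^ (2 : ℝ)
      = ∫⁻ y : E m, ‖𝓕 f (r • y)‖ₑ ^ (2 : ℝ) := lintegral_congr fun y => by rw [key]
  have h2 : ∫⁻ y : E m, ‖𝓕 f (r • y)‖ₑ ^ (2 : ℝ)
      = ∫⁻ w, ‖𝓕 f w‖ₑ ^ (2 : ℝ) ∂(Measure.map (r • ·) (volume : Measure (E m))) := by
    rw [lintegral_map (f := fun w => ‖𝓕 f w‖ₑ ^ (2 : ℝ))]
    · exact ((𝓕 f).continuous.measurable.enorm).pow_const _
    · exact measurable_const_smul r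
  rw [h1, h2, Measure.map_addHaar_smul volume hr0, lintegral_smul_measure, lint_sq,
    SchwartzMap.integral_norm_sq_fourier, ← lint_sq]
  have h3 : |(r ^ Module.finrank ℝ (E m))⁻¹| = (2 * Real.pi) ^ m := by
    have hpi := Real.pi_pos
    rw [finrank_euclideanSpace, Fintype.card_fin, hr, abs_inv, abs_pow, abs_neg, abs_inv,
      abs_of_pos (by positivity : (0 : ℝ) < 2 * Real.pi), inv_pow, inv_inv]
  rw [h3]
  rfl

end Pool.Agent.H13.BD
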