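import Pool.Agent.H93.BD.Targets2

/-!
Module SLC (board bdc_modules): orthonormal coordinates adapted to a unit vector.
-/

namespace Pool.Agent.H13.BD

open Pool.Agent.H93.BD MeasureTheory

/-- the product with its Euclidean inner product -/
abbrev WX (m : ℕ) := WithLp 2 (E m × ℝ)

theorem finrank_WX (m : ℕ) : Module.finrank ℝ (WX m) = m + 1 := by
  have h : Module.finrank ℝ (WX m) = Module.finrank ℝ (E m × ℝ) :=
    (WithLp.linearEquiv 2 ℝ (E m × ℝ)).finrank_eq
  rw [h, Module.finrank_prod]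
  simp

theorem exists_onb (F : Type) [NormedAddCommGroup F] [InnerProductSpace ℝ F]
    [FiniteDimensional ℝ F] (m : ℕ) (hF : Module.finrank ℝ F = m + 1) (v : F) (hv : ‖v‖ = 1) :
    ∃ b : OrthonormalBasis (Fin (m + 1)) ℝ F, b 0 = v := by
  have ho : Orthonormal ℝ (({0} : Set (Fin (m + 1))).domRestrict (fun _ => v)) := by
    constructor
    · intro i; simpa using hv
    · intro i j hij
      exact absurd (Subsingleton.elim i j) hij
  obtain ⟨b, hb⟩ := ho.exists_orthonormalBasis_extension_of_card_eq (by simp [hF])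
  exact ⟨b, hb 0 rfl⟩

theorem exists_iso (m : ℕ) (ν : E (m + 1)) (hν : ‖ν‖ = 1) :
    ∃ L : WX m ≃ₗᵢ[ℝ] E (m + 1), L (WithLp.toLp 2 ((0 : E m), (1 : ℝ))) = ν := by
  have h1 : ‖(WithLp.toLp 2 ((0 : E m), (1 : ℝ)) : WX m)‖ = 1 := by
    simp
  obtain ⟨b, hb⟩ := exists_onb (WX m) m (finrank_WX m) _ h1
  obtain ⟨c, hc⟩ := exists_onb (E (m + 1)) m (by simp) ν hν
  refine ⟨b.equiv c (Equiv.refl _), ?_⟩
  rw [← hb, OrthonormalBasis.equiv_apply_basis]
  simpa using hc

/-- SLC -/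
theorem pf_SLC : T_SLC := by
  intro m ν hν
  obtain ⟨L, hL⟩ := exists_iso m ν hν
  let e1 : X m ≃ᵐ WX m := (MeasurableEquiv.toLp 2 (E m × ℝ))
  let e2 : WX m ≃ᵐ E (m + 1) := L.toMeasurableEquiv
  refine ⟨e1.trans e2, ?_, ?_, ?_, ?_, ?_⟩
  · exact (LinearIsometryEquiv.measurePreserving L).comp
      (WithLp.volume_preserving_toLp (E m) ℝ)
  · intro x y
    exact L.map_add (WithLp.toLp 2 x) (WithLp.toLp 2 y)
  · intro r x
    exact L.map_smul r (WithLp.toLp 2 x)
  · intro x y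
    have h := L.inner_map_map (WithLp.toLp 2 x) (WithLp.toLp 2 y)
    refine h.trans ?_
    rw [WithLp.prod_inner_apply]
    simp [mul_comm]
  · intro x
    have h := L.inner_map_map (WithLp.toLp 2 ((0 : E m), (1 : ℝ))) (WithLp.toLp 2 x)
    rw [hL] at h
    refine h.trans ?_
    rw [WithLp.prod_inner_apply]
    simp

end Pool.Agent.H13.BD
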