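import Pool.Agent.H93.BD.Targets2

/-!
Module SLF (board bdc_modules): restriction of a Fourier integral to a hyperplane.
-/

namespace Pool.Agent.H13.BD

open Pool.Agent.H93.BD MeasureTheory
open scoped ENNReal NNReal

/-- `((ξ, b), t) ↦ ((ξ, t), b)` -/
noncomputable def sw (m : ℕ) : (X m × ℝ) ≃ᵐ (X m × ℝ) :=
  (MeasurableEquiv.prodAssoc.trans
    ((MeasurableEquiv.refl (E m)).prodCongr MeasurableEquiv.prodComm)).trans
    MeasurableEquiv.prodAssoc.symm

theorem sw_apply (m : ℕ) (z : X m) (t : ℝ) : sw m (z, t) = ((z.1, t), z.2) := rfl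

theorem sw_mp (m : ℕ) : MeasurePreserving (sw m) (volume : Measure (X m × ℝ)) volume := by
  have h1 : MeasurePreserving (MeasurableEquiv.prodAssoc : (E m × ℝ) × ℝ ≃ᵐ E m × ℝ × ℝ)
      volume volume := volume_preserving_prodAssoc
  have h2 : MeasurePreserving
      ((MeasurableEquiv.refl (E m)).prodCongr (MeasurableEquiv.prodComm : ℝ × ℝ ≃ᵐ ℝ × ℝ))
      (volume : Measure (E m × ℝ × ℝ)) volume :=
    (MeasurePreserving.id (volume : Measure (E m))).prod
      (Measure.measurePreserving_swap (μ := (volume : Measure ℝ)) (ν := (volume : Measure ℝ)))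
  exact (h1.symm _).comp (h2.comp h1)

theorem pf_SLF : T_SLF := by
  intro m Ψ hΨ hin g hg s
  -- the change of variables
  let e : (X m × ℝ) ≃ᵐ X (m + 1) := (sw m).trans (Ψ.prodCongr (MeasurableEquiv.refl ℝ))
  have he : ∀ z t, e (z, t) = (Ψ (z.1, t), z.2) := fun z t => rfl
  have hmp : MeasurePreserving e (volume : Measure (X m × ℝ)) volume := by
    have h2 : MeasurePreserving (Ψ.prodCongr (MeasurableEquiv.refl ℝ))
        (volume : Measure (X m × ℝ)) (volume : Measure (E (m + 1) × ℝ)) :=
      hΨ.prod (MeasurePreserving.id (volume : Measure ℝ))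
    exact h2.comp (sw_mp m)
  have hge : Integrable (fun q : X m × ℝ => g (e q)) volume :=
    (hmp.integrable_comp_emb e.measurableEmbedding).2 hg
  have hk : Integrable (fun q : X m × ℝ =>
      g (e q) * Complex.exp (((s * q.2 : ℝ) : ℂ) * Complex.I)) volume := by
    refine hge.mul_bdd (c := 1) ?_ ?_
    · exact (Continuous.aestronglyMeasurable (by fun_prop))
    · refine Filter.Eventually.of_forall fun q => ?_
      rw [Complex.norm_exp_ofReal_mul_I]
  refine ⟨fun z => ∫ t, g (Ψ (z.1, t), z.2) * Complex.exp (((s * t : ℝ) : ℂ) * Complex.I),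
    ?_, ?_, ?_⟩
  · exact hk.integral_prod_left
  · intro z hz
    by_contra hcon
    push Not at hcon
    refine hz ?_
    have : (fun t : ℝ => g (Ψ (z.1, t), z.2) * Complex.exp (((s * t : ℝ) : ℂ) * Complex.I))
        = fun _ => 0 := by
      funext t
      rw [hcon t, zero_mul]
    show (∫ t : ℝ, g (Ψ (z.1, t), z.2) * Complex.exp (((s * t : ℝ) : ℂ) * Complex.I)) = 0
    rw [this, integral_zero]
  · intro y w
    have hph : ∀ q : X m × ℝ, ph (e q) (Ψ (y, s), w)
        = Complex.exp (((s * q.2 : ℝ) : ℂ) * Complex.I) * ph q.1 (y, w) := by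
      intro q
      obtain ⟨z, t⟩ := q
      rw [he]
      simp only [ph, hin, ← Complex.exp_add]
      congr 1
      push_cast
      ring
    have hint : Integrable (fun q : X m × ℝ =>
        g (e q) * Complex.exp (((s * q.2 : ℝ) : ℂ) * Complex.I) * ph q.1 (y, w)) volume := by
      refine hk.mul_bdd (c := 1) ?_ ?_
      · refine Continuous.aestronglyMeasurable ?_
        unfold ph
        fun_prop
      · refine Filter.Eventually.of_forall fun q => ?_
        unfold ph
        rw [Complex.norm_exp_ofReal_mul_I]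
    calc FI g (Ψ (y, s), w) = ∫ q : X m × ℝ, g (e q) * ph (e q) (Ψ (y, s), w) := by
          unfold FI
          exact (hmp.integral_comp e.measurableEmbedding
            (fun z' => g z' * ph z' (Ψ (y, s), w))).symm
      _ = ∫ q : X m × ℝ,
          g (e q) * Complex.exp (((s * q.2 : ℝ) : ℂ) * Complex.I) * ph q.1 (y, w) := by
          refine integral_congr_ae (Filter.Eventually.of_forall fun q => ?_)
          simp only [hph]
          ring
      _ = ∫ z : X m, ∫ t : ℝ,
          g (e (z, t)) * Complex.exp (((s * t : ℝ) : ℂ) * Complex.I) * ph z (y, w) :=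
          integral_prod _ hint
      _ = _ := by
          unfold FI
          refine integral_congr_ae (Filter.Eventually.of_forall fun z => ?_)
          simp only [he]
          exact integral_mul_const _ _

end Pool.Agent.H13.BD
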